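import Pool.Agent.Lib_MP_af4de1_zy.Z81

/-!
# All zeros in one list, with the bound `‖z k‖ < ‖q‖ * ‖z (k + 1)‖` for consecutive zeros

`State` (part (d)) with holomorphic normalised zeros; the quotients `w j / w (j + 1) =
z j / (q z (j + 1))` are holomorphic in the disc and smaller than `1` on a circle near the unit
circle.
-/

set_option autoImplicit false

namespace SokamRt

open Complex SokamF SokamHD Filter Topology Metric Set

variable {K : Set ℂ} {k : ℕ} {d : ℕ → ℂ → ℂ} {w : ℕ → ℂ → ℂ}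

/-- One step, with holomorphic `w`. -/
theorem step (hK : IsCompact K) (hcv : Convex ℝ K) (hi : (interior K).Nonempty)
    (h1 : ∀ q ∈ K, ‖q‖ ≤ 1) (h2 : (1 : ℂ) ∉ K) (h : State K k d w)
    (hd : ∀ j < k, DifferentiableOn ℂ (w j) (interior K))
    (hB : ∀ q ∈ frontier K, q ≠ 0 → ∃ z, First q (k + 1) z ∧ StarN q (k + 1) z) :
    ∃ d' w', State K (k + 1) d' w' ∧ ∀ j < k + 1, DifferentiableOn ℂ (w' j) (interior K) := by
  obtain ⟨W, hb⟩ := exists_Bd hK.isClosed h hB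
  have hWc := hb.continuousOn hK h1 h
  have hq := hb.quot_ne hK h1 h
  obtain ⟨L, hL, hLW⟩ := hb.exists_L hK h1 h2 h hWc
  have hc : Ent K (Cf d) := h.ent.Cf h1
  have hcd : ∀ n, DifferentiableOn ℂ (Cf d n) (interior K) := fun n =>
    (differentiableOn_id.pow _).mul (h.diff n)
  have hc1 : ∀ q ∈ K, Cf d 0 q = 1 := fun q hq => by simp [Cf, h.one q hq]
  obtain ⟨W', hW', hWd', hWf, hW0⟩ := exists_W hK hcv hi hc hcd hc1 hWc hb.zero hq hL hLW
  have hq' : ∀ q ∈ frontier K, ∀ u : ℂ, ‖u‖ ≤ 1 → S (quot (Cf d) W') q (W' q * u) ≠ 0 := by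
    intro q hqf u hu
    have h3 : S (quot (Cf d) W') q (W' q * u) = S (quot (Cf d) W) q (W q * u) := by
      simp only [S, quot, hWf q hqf]
    rw [h3]
    exact hq q hqf u hu
  refine ⟨_, _, h.succ hK h1 hW' hWd' (fun q hq => (hW0 q hq).1) (fun q hq => (hW0 q hq).2)
    (W_unique hK hcv hi hc hcd hc1 hW' hWd' (fun q hq => (hW0 q hq).2) hq'), fun j hj => ?_⟩
  rcases Nat.lt_succ_iff_lt_or_eq.1 hj with hj | rfl
  · rw [Function.update_of_ne hj.ne]
    exact hd j hj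
  · rw [Function.update_self]
    exact hWd'

theorem exists_state (hK : IsCompact K) (hcv : Convex ℝ K) (hi : (interior K).Nonempty)
    (h1 : ∀ q ∈ K, ‖q‖ ≤ 1) (h2 : (1 : ℂ) ∉ K)
    (hB : ∀ q ∈ frontier K, q ≠ 0 → ∃ z, First q k z ∧ StarN q k z) :
    ∃ d w, State K k d w ∧ ∀ j < k, DifferentiableOn ℂ (w j) (interior K) := by
  induction k with
  | zero => exact ⟨_, _, State.init h1 (fun _ _ => 0), fun j hj => absurd hj (Nat.not_lt_zero j)⟩
  | succ k ih =>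
    obtain ⟨d, w, h, hd⟩ := ih fun q hq hq0 => by
      obtain ⟨z, hz, hs⟩ := hB q hq hq0
      exact ⟨z, hz.mono (by omega), hs.mono (by omega)⟩
    exact step hK hcv hi h1 h2 h hd hB

/-- Two lists of the first `k` zeros agree. -/
theorem first_eq {q : ℂ} {k : ℕ} {a b : ℕ → ℂ} (ha : First q k a) (hb : First q k b) :
    ∀ j < k, a j = b j :=
  first_unique (q := q) (Z := {u | F q u = 0}) (fun j hj => (ha.1 j hj).1) ha.2.1
    (fun u hu => ha.2.2 u hu) (fun j hj => (hb.1 j hj).1) hb.2.1 (fun u hu => hb.2.2 u hu)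

/-- The ratios in the disc `‖q‖ ≤ ρ` from the circle `‖q‖ = ρ`. -/
theorem ratio_of_circ {ρ : ℝ} (hρ0 : 0 < ρ) (hρ1 : ρ < 1) {k : ℕ} {z : ℝ → ℕ → ℂ}
    (h : SokamIn.Circ ρ k z) {q : ℂ} (hq0 : q ≠ 0) (hq : ‖q‖ ≤ ρ) :
    ∃ z, First q (k + 1) z ∧ ∀ i < k, ‖z i‖ < ‖q‖ * ‖z (i + 1)‖ := by
  have hK : IsCompact (closedBall (0 : ℂ) ρ) := isCompact_closedBall 0 ρ
  have h1 : ∀ q ∈ closedBall (0 : ℂ) ρ, ‖q‖ ≤ 1 := fun q hq => by
    rw [mem_closedBall_zero_iff] at hq; linarith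
  have h2 : (1 : ℂ) ∉ closedBall (0 : ℂ) ρ := by
    rw [mem_closedBall_zero_iff, norm_one]; linarith
  have hi0 : interior (closedBall (0 : ℂ) ρ) = ball 0 ρ := interior_closedBall _ hρ0.ne'
  have hi : (interior (closedBall (0 : ℂ) ρ)).Nonempty := by
    rw [hi0]
    exact ⟨0, mem_ball_self hρ0⟩
  have hqq : ∀ p : ℂ, ‖p‖ = ρ → SokamIn.qq ρ p.arg 1 = p := by
    intro p hp
    unfold SokamIn.qq
    rw [ofReal_one, one_mul, exp_add, ← ofReal_exp, Real.exp_log hρ0, ← hp]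
    exact norm_mul_exp_arg_mul_I p
  have hfz : ∀ p : ℂ, ‖p‖ = ρ → First p (k + 1) (z p.arg) := by
    intro p hp
    have h3 := h.first p.arg
    rw [hqq p hp] at h3
    exact First.of_in h3
  have hB : ∀ p ∈ frontier (closedBall (0 : ℂ) ρ), p ≠ 0 →
      ∃ z, First p (k + 1) z ∧ StarN p (k + 1) z := by
    intro p hp _
    rw [frontier_closedBall _ hρ0.ne', mem_sphere_zero_iff_norm] at hp
    have h3 := hfz p hp
    refine ⟨z p.arg, h3, fun i j hij hj τ hτ he => ?_⟩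
    -- the gap
    have hgap : ∀ j, j < k + 1 → ∀ i, i < j → ‖z p.arg i‖ < ρ * ‖z p.arg j‖ := by
      intro j hj i hij
      obtain ⟨l, rfl⟩ : ∃ l, j = l + 1 := ⟨j - 1, by omega⟩
      have h4 := h.gap p.arg l (by omega)
      rcases Nat.lt_succ_iff_lt_or_eq.mp hij with h5 | h5
      · exact (h3.2.1 i l h5 (by omega)).trans h4
      · rw [h5]; exact h4
    have h4 := hgap j hj i hij
    rw [he, norm_mul, norm_mul, hp, norm_real, Real.norm_of_nonneg (by linarith)] at h4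
    nlinarith [mul_nonneg hρ0.le (norm_nonneg (z p.arg j))]
  obtain ⟨d, w, hs, hwd⟩ := exists_state hK (convex_closedBall 0 ρ) hi h1 h2 hB
  have hqK : q ∈ closedBall (0 : ℂ) ρ := mem_closedBall_zero_iff.mpr hq
  refine ⟨_, hs.first h1 hqK hq0, fun i hik => ?_⟩
  -- the quotient
  have hfd : DiffContOnCl ℂ (fun p => w i p / w (i + 1) p) (ball 0 ρ) := by
    refine ⟨?_, ?_⟩
    · rw [← hi0]
      exact (hwd i (by omega)).div (hwd (i + 1) (by omega)) fun p hp =>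
        hs.wne (i + 1) (by omega) p (interior_subset hp)
    · rw [closure_ball _ hρ0.ne']
      exact (hs.wc i (by omega)).div (hs.wc (i + 1) (by omega)) fun p hp =>
        hs.wne (i + 1) (by omega) p hp
  have hfb : ∀ p ∈ sphere (0 : ℂ) ρ, ‖w i p / w (i + 1) p‖ < 1 := by
    intro p hp
    rw [mem_sphere_zero_iff_norm] at hp
    have hpK : p ∈ closedBall (0 : ℂ) ρ := mem_closedBall_zero_iff.mpr hp.le
    have hp0 : p ≠ 0 := norm_pos_iff.1 (by rw [hp]; exact hρ0)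
    have e := first_eq (hs.first h1 hpK hp0) (hfz p hp)
    have e1 := e i (by omega)
    have e2 := e (i + 1) (by omega)
    have h4 := h.gap p.arg i hik
    rw [← e1, ← e2] at h4
    simp only [norm_div, norm_pow, hp] at h4
    have hw := norm_pos_iff.2 (hs.wne (i + 1) (by omega) p hpK)
    rw [norm_div, div_lt_one hw]
    have hρi : 0 < ρ ^ i := pow_pos hρ0 i
    have e3 : ρ * (‖w (i + 1) p‖ / ρ ^ (i + 1)) = ‖w (i + 1) p‖ / ρ ^ i := by
      rw [pow_succ]
      field_simp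
    rw [e3, div_lt_div_iff_of_pos_right hρi] at h4
    exact h4
  have hne : (sphere (0 : ℂ) ρ).Nonempty := NormedSpace.sphere_nonempty.2 hρ0.le
  have hcs : ContinuousOn (fun p => ‖w i p / w (i + 1) p‖) (sphere (0 : ℂ) ρ) := by
    refine (hfd.2.norm).mono ?_
    rw [closure_ball _ hρ0.ne']
    exact sphere_subset_closedBall
  obtain ⟨p0, hp0, hmax⟩ := (isCompact_sphere (0 : ℂ) ρ).exists_isMaxOn hne hcs
  have hle : ‖w i q / w (i + 1) q‖ ≤ ‖w i p0 / w (i + 1) p0‖ := by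
    refine Complex.norm_le_of_forall_mem_frontier_norm_le (U := ball (0 : ℂ) ρ) isBounded_ball hfd
      (fun p hp => ?_) (by rw [closure_ball _ hρ0.ne']; exact hqK)
    rw [frontier_ball _ hρ0.ne'] at hp
    exact hmax hp
  have hlt := hle.trans_lt (hfb p0 hp0)
  have hw := norm_pos_iff.2 (hs.wne (i + 1) (by omega) q hqK)
  rw [norm_div, div_lt_one hw] at hlt
  have hqi : 0 < ‖q‖ := norm_pos_iff.2 hq0
  simp only [norm_div, norm_pow]
  have e3 : ‖q‖ * (‖w (i + 1) q‖ / ‖q‖ ^ (i + 1)) = ‖w (i + 1) q‖ / ‖q‖ ^ i := by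
    rw [pow_succ]
    field_simp
  rw [e3]
  exact div_lt_div_of_pos_right hlt (pow_pos hqi i)

/-- The lists of the first zeros fit together. -/
theorem list_of_first {q : ℂ} (hq : ‖q‖ ≤ 1) {R : ℂ → ℂ → Prop}
    (h : ∀ k, ∃ z, First q (k + 1) z ∧ ∀ i < k, R (z i) (z (i + 1))) :
    ∃ z : ℕ → ℂ, (∀ k, F q (z k) = 0 ∧ F q (q * z k) ≠ 0) ∧ (∀ u, F q u = 0 → ∃ k, u = z k) ∧
      ∀ k, R (z k) (z (k + 1)) := by
  choose z hz hR using h
  have hzz : ∀ m n, m ≤ n → ∀ j ≤ m, z m j = z n j := fun m n hmn j hj =>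
    first_eq (hz m) ((hz n).mono (by omega)) j (by omega)
  refine ⟨fun k => z k k, fun k => (hz k).1 k (Nat.lt_succ_self k), fun u hu => ?_, fun k => ?_⟩
  · by_contra hne
    push Not at hne
    have h3 : ∀ n, ‖z n n‖ < ‖u‖ := by
      intro n
      rcases (hz n).2.2 u hu with ⟨j, hj, h4⟩ | h4
      · exact absurd (h4.trans (hzz j n (by omega) j le_rfl).symm) (hne j)
      · exact h4 n (Nat.lt_succ_self n)
    have h4 : Set.Infinite {v : ℂ | F q v = 0 ∧ ‖v‖ ≤ ‖u‖} := by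
      refine Set.infinite_of_injective_forall_mem (f := fun n => z n n) ?_ fun n =>
        ⟨((hz n).1 n (Nat.lt_succ_self n)).1, (h3 n).le⟩
      intro m n hmn
      by_contra hne
      rcases lt_or_gt_of_ne hne with hlt | hlt
      · have h5 := (hz n).2.1 m n hlt (Nat.lt_succ_self n)
        have h6 := hzz m n hlt.le m le_rfl
        simp only at hmn
        rw [← h6, hmn] at h5
        exact lt_irrefl _ h5
      · have h5 := (hz m).2.1 n m hlt (Nat.lt_succ_self m)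
        have h6 := hzz n m hlt.le n le_rfl
        simp only at hmn
        rw [← h6, ← hmn] at h5
        exact lt_irrefl _ h5
    exact h4 (finite_zeros hq _)
  · have h1 := hR (k + 1) k (Nat.lt_succ_self k)
    rw [← hzz k (k + 1) (Nat.le_succ k) k le_rfl] at h1
    exact h1

/-- **All zeros in one list.**  If the zeros of `F(·;p)` are simple and of distinct moduli for all
`|p| = 1`, `p ≠ 1`, then for all `0 < |q| ≤ 1`, `q ≠ 1`, the zeros of `F(·;q)` are a sequence of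
simple zeros with `‖z k‖ < ‖q‖ * ‖z (k + 1)‖`. -/
theorem exists_list (H : ∀ p : ℂ, ‖p‖ = 1 → p ≠ 1 → SokamIn.Dist p) {q : ℂ} (hq0 : 0 < ‖q‖)
    (hq1 : ‖q‖ ≤ 1) (hne : q ≠ 1) :
    ∃ z : ℕ → ℂ, (∀ k, F q (z k) = 0) ∧ (∀ u, F q u = 0 → ∃ k, u = z k) ∧
      (∀ k, deriv (F q) (z k) ≠ 0) ∧ ∀ k, ‖z k‖ < ‖q‖ * ‖z (k + 1)‖ := by
  have key : ∀ k, ∃ z, First q (k + 1) z ∧ ∀ i < k, ‖z i‖ < ‖q‖ * ‖z (i + 1)‖ := by
    intro k
    rcases hq1.lt_or_eq with h | h
    · obtain ⟨ρ, h1, h2, h3, z, hz⟩ := SokamIn.exists_circ (k := k)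
        (fun p hp hp1 k => SokamIn.exists_first hp hp1 (H p hp hp1) k) (SokamIn.tip k) h
      exact ratio_of_circ h2 h3 hz (norm_pos_iff.1 hq0) h1.le
    · obtain ⟨z, hz⟩ := SokamIn.exists_first h hne (H q h hne) k
      refine ⟨z, First.of_in hz, fun i hi => ?_⟩
      rw [h, one_mul]
      exact hz.mono i hi
  obtain ⟨z, h1, h2, h3⟩ := list_of_first (R := fun a b => ‖a‖ < ‖q‖ * ‖b‖) hq1 key
  refine ⟨z, fun k => (h1 k).1, h2, fun k => ?_, h3⟩
  rw [deriv_F hq1]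
  exact (h1 k).2

end SokamRt
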